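import Mathlib

open Set

namespace Pool.Agent.H.MP_4926dc_gt

noncomputable section

abbrev V := Fin 5 → ℝ

def g : LinearMap.BilinForm ℝ V :=
  LinearMap.mk₂ ℝ (fun v w => v 0 * w 2 + v 2 * w 0 + v 1 * w 3 + v 3 * w 1 + v 4 * w 4)
    (fun _ _ _ => by simp; ring) (fun _ _ _ => by simp; ring)
    (fun _ _ _ => by simp; ring) (fun _ _ _ => by simp; ring)

theorem g_ap (v w : V) : g v w = v 0 * w 2 + v 2 * w 0 + v 1 * w 3 + v 3 * w 1 + v 4 * w 4 := rfl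

def A : V →ₗ[ℝ] V where
  toFun v := ![0, 0, 2 * v 0 - v 1, -v 0 - 2 * v 1, 0]
  map_add' v w := by
    funext i
    fin_cases i <;> simp <;> ring
  map_smul' c v := by
    funext i
    fin_cases i <;> simp <;> ring

theorem A_ap (v : V) : A v = ![0, 0, 2 * v 0 - v 1, -v 0 - 2 * v 1, 0] := rfl

def C : V ≃ₗ[ℝ] V where
  toFun v := ![2 * v 0 + v 1, v 0 + v 1, v 2 - v 3, -v 2 + 2 * v 3, v 4]
  invFun v := ![v 0 - v 1, -v 0 + 2 * v 1, 2 * v 2 + v 3, v 2 + v 3, v 4]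
  map_add' v w := by
    funext i
    fin_cases i <;> simp <;> ring
  map_smul' c v := by
    funext i
    fin_cases i <;> simp <;> ring
  left_inv v := by
    funext i
    fin_cases i <;> simp <;> ring
  right_inv v := by
    funext i
    fin_cases i <;> simp <;> ring

theorem C_ap (v : V) : C v = ![2 * v 0 + v 1, v 0 + v 1, v 2 - v 3, -v 2 + 2 * v 3, v 4] := rfl

def Lat (v : V) : Prop := ∃ m : Fin 5 → ℤ, ∀ i, v i = m i

theorem Lat.add {v w : V} (h : Lat v) (h' : Lat w) : Lat (v + w) := by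
  obtain ⟨m, hm⟩ := h
  obtain ⟨m', hm'⟩ := h'
  exact ⟨m + m', fun i => by simp [hm, hm']⟩

theorem Lat.neg {v : V} (h : Lat v) : Lat (-v) := by
  obtain ⟨m, hm⟩ := h
  exact ⟨-m, fun i => by simp [hm]⟩

def H : Subgroup (V ≃ₗ[ℝ] V) where
  carrier := {T | (∀ v, Lat v ↔ Lat (T v)) ∧ (∀ v, T v 4 = v 4) ∧ (∀ v w, g (T v) (T w) = g v w) ∧
    ∀ v, A (T v) = T (A v)}
  one_mem' := ⟨fun _ => Iff.rfl, fun _ => rfl, fun _ _ => rfl, fun _ => rfl⟩
  mul_mem' := by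
    rintro S T ⟨a1, a2, a3, a4⟩ ⟨b1, b2, b3, b4⟩
    refine ⟨fun v => (b1 v).trans (a1 _), fun v => (a2 _).trans (b2 v),
      fun v w => (a3 _ _).trans (b3 v w), fun v => (a4 _).trans (congrArg S (b4 v))⟩
  inv_mem' := by
    rintro T ⟨a1, a2, a3, a4⟩
    have e : ∀ v, T (T⁻¹ v) = v := fun v => T.apply_symm_apply v
    refine ⟨fun v => ?_, fun v => ?_, fun v w => ?_, fun v => ?_⟩
    · rw [a1 (T⁻¹ v), e]
    · rw [← a2 (T⁻¹ v), e]
    · rw [← a3 (T⁻¹ v) (T⁻¹ w), e, e]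
    · apply T.injective
      rw [← a4, e, e]

theorem C_mem : C ∈ H := by
  refine ⟨fun v => ⟨?_, ?_⟩, fun v => rfl, fun v w => ?_, fun v => ?_⟩
  · rintro ⟨m, hm⟩
    refine ⟨![2 * m 0 + m 1, m 0 + m 1, m 2 - m 3, -m 2 + 2 * m 3, m 4], fun i => ?_⟩
    fin_cases i <;> simp [C_ap, hm]
  · rintro ⟨m, hm⟩
    refine ⟨![m 0 - m 1, -m 0 + 2 * m 1, 2 * m 2 + m 3, m 2 + m 3, m 4], fun i => ?_⟩
    fin_cases i <;> simp [← hm, C_ap] <;> ring
  · simp [g_ap, C_ap]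
    ring
  · funext i
    fin_cases i <;> simp [A_ap, C_ap] <;> ring

theorem Cn (n : ℤ) : C ^ n ∈ H := H.zpow_mem C_mem n

theorem aff (γ : V ≃ᵃ[ℝ] V) (p : V) : γ p = γ.linear p + γ 0 := by
  have := γ.map_vadd 0 p
  simpa using this

def G : Subgroup (V ≃ᵃ[ℝ] V) where
  carrier := {γ | ∃ n : ℤ, γ.linear = C ^ n ∧ Lat (γ 0) ∧ γ 0 4 = n}
  one_mem' := ⟨0, rfl, ⟨0, fun _ => by simp⟩, by simp⟩
  mul_mem' := by
    rintro γ δ ⟨n, a1, a2, a3⟩ ⟨m, b1, b2, b3⟩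
    have e : (γ * δ) 0 = (C ^ n) (δ 0) + γ 0 := by
      rw [← a1]
      exact aff γ (δ 0)
    refine ⟨n + m, ?_, ?_, ?_⟩
    · rw [zpow_add, ← a1, ← b1]
      rfl
    · rw [e]
      exact (((Cn n).1 _).1 b2).add a2
    · rw [e, Pi.add_apply, (Cn n).2.1, a3, b3]
      push_cast
      ring
  inv_mem' := by
    rintro γ ⟨n, a1, a2, a3⟩
    have e : (C ^ n) (γ⁻¹ 0) = -γ 0 := by
      have := aff γ (γ⁻¹ 0)
      rw [show γ (γ⁻¹ 0) = 0 from γ.apply_symm_apply 0, a1] at this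
      exact eq_neg_of_add_eq_zero_left this.symm
    refine ⟨-n, ?_, ?_, ?_⟩
    · rw [zpow_neg, ← a1]
      rfl
    · rw [(Cn n).1, e]
      exact a2.neg
    · rw [← (Cn n).2.1 (γ⁻¹ 0), e, Pi.neg_apply, a3]
      push_cast
      ring

def mk (n : ℤ) (v : V) : V ≃ᵃ[ℝ] V := (C ^ n).toAffineEquiv.trans (AffineEquiv.constVAdd ℝ V v)

theorem mk_ap (n : ℤ) (v p : V) : mk n v p = v + (C ^ n) p := rfl

theorem mk_mem (n : ℤ) (v : V) (h : Lat v) (h4 : v 4 = n) : mk n v ∈ G :=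
  ⟨n, by ext; rfl, by rw [mk_ap, map_zero, add_zero]; exact h, by rw [mk_ap, map_zero, add_zero]; exact h4⟩

theorem eq_mk {γ : V ≃ᵃ[ℝ] V} {n : ℤ} (h : γ.linear = C ^ n) : γ = mk n (γ 0) := by
  ext1 p
  rw [mk_ap, aff, h, add_comm]

theorem free (γ : V ≃ᵃ[ℝ] V) (h : γ ∈ G) (p : V) (hp : γ p = p) : γ = 1 := by
  obtain ⟨n, a1, -, a3⟩ := h
  have e := aff γ p
  rw [hp, a1] at e
  have e4 := congrFun e 4
  rw [Pi.add_apply, (Cn n).2.1, a3] at e4
  have : n = 0 := by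
    have : (n : ℝ) = 0 := by linarith
    exact_mod_cast this
  subst this
  have e0 : γ 0 = 0 := by simpa using e
  ext1 q
  rw [aff, a1, e0]
  simp

theorem lat_fin {K : Set V} (hK : IsCompact K) : {v | Lat v ∧ v ∈ K}.Finite := by
  obtain ⟨R, hR⟩ := hK.isBounded.exists_norm_le
  refine ((Set.Finite.pi' (fun _ : Fin 5 => Set.finite_Icc (-⌈R⌉) ⌈R⌉)).image
    (fun (m : Fin 5 → ℤ) i => (m i : ℝ))).subset ?_
  rintro v ⟨⟨m, hm⟩, hv⟩
  refine ⟨m, fun i => ?_, funext fun i => (hm i).symm⟩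
  have h1 := abs_le.1 ((norm_le_pi_norm v i).trans ((hR v hv).trans (Int.le_ceil R)))
  rw [hm] at h1
  exact ⟨by exact_mod_cast h1.1, by exact_mod_cast h1.2⟩

theorem proper (K : Set V) (hK : IsCompact K) : {γ | γ ∈ G ∧ (γ '' K ∩ K).Nonempty}.Finite := by
  obtain ⟨R, hR⟩ := hK.isBounded.exists_norm_le
  refine ((Set.finite_Icc (-⌈2 * R⌉) ⌈2 * R⌉).biUnion (t := fun n => mk n ''
    {v | Lat v ∧ v ∈ (fun x : V × V => x.1 - (C ^ n) x.2) '' (K ×ˢ K)}) fun n _ =>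
      (lat_fin ((hK.prod hK).image ?_)).image _).subset ?_
  · have := (C ^ n).toLinearMap.continuous_of_finiteDimensional
    exact continuous_fst.sub (this.comp continuous_snd)
  · rintro γ ⟨⟨n, a1, a2, a3⟩, q, ⟨p, hp, rfl⟩, hq⟩
    have e := aff γ p
    rw [a1] at e
    have e4 := congrFun e 4
    rw [Pi.add_apply, (Cn n).2.1, a3] at e4
    have h1 := abs_le.1 ((norm_le_pi_norm p 4).trans (hR p hp))
    have h2 := abs_le.1 ((norm_le_pi_norm (γ p) 4).trans (hR _ hq))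
    have h3 := Int.le_ceil (2 * R)
    simp only [mem_iUnion]
    refine ⟨n, ⟨?_, ?_⟩, γ 0, ⟨a2, (γ p, p), ⟨hq, hp⟩, ?_⟩, (eq_mk a1).symm⟩
    · have : ((-⌈2 * R⌉ : ℤ) : ℝ) ≤ n := by push_cast; linarith [h1.1, h1.2, h2.1, h2.2]
      exact_mod_cast this
    · have : (n : ℝ) ≤ ((⌈2 * R⌉ : ℤ) : ℝ) := by linarith [h1.1, h1.2, h2.1, h2.2]
      exact_mod_cast this
    · simp only
      rw [e]
      abel

theorem cocpt (p : V) : ∃ γ ∈ G, γ p ∈ Icc (0 : V) 1 := by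
  let n : ℤ := -⌊p 4⌋
  refine ⟨mk n fun i => ((-⌊(C ^ n) p i⌋ : ℤ) : ℝ), mk_mem _ _ ⟨_, fun _ => rfl⟩ ?_, ?_⟩
  · simp only [(Cn n).2.1]
    rfl
  · rw [mk_ap]
    constructor <;> intro i <;> simp only [Pi.add_apply, Pi.zero_apply, Pi.one_apply] <;> push_cast
    · linarith [Int.floor_le ((C ^ n) p i)]
    · linarith [Int.lt_floor_add_one ((C ^ n) p i)]

theorem eig (l : V → ℝ) (μ : ℝ) (h : ∀ v, l (C v) = μ * l v) (k : ℕ) (v : V) :
    l ((C ^ k) v) = μ ^ k * l v := by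
  induction k with
  | zero => simp
  | succ k ih => rw [pow_succ', LinearEquiv.mul_apply, h, ih]; ring

theorem fix (k : ℕ) (hk : 0 < k) (v : V) (h : (C ^ k) v = v) (hg : g v v = 0) : v = 0 := by
  have key : ∀ α : ℝ, α ^ 2 = α + 1 → 0 ≤ α + 1 → α * v 0 + v 1 = 0 ∧ α * v 3 - v 2 = 0 := by
    intro α h1 h2
    have h3 : (α + 1) ^ k ≠ 1 := by
      rw [Ne, pow_eq_one_iff_of_nonneg h2 hk.ne']
      intro h
      have : α = 0 := by linarith
      rw [this] at h1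
      norm_num at h1
    have e1 := eig (fun v => α * v 0 + v 1) (α + 1) (fun v => by
      simp [C_ap]; linear_combination (-v 0) * h1) k v
    have e2 := eig (fun v => α * v 3 - v 2) (α + 1) (fun v => by
      simp [C_ap]; linear_combination (-v 3) * h1) k v
    simp only [h] at e1 e2
    constructor
    · by_contra hne
      exact h3 (mul_right_cancel₀ hne (by rw [← e1, one_mul]))
    · by_contra hne
      exact h3 (mul_right_cancel₀ hne (by rw [← e2, one_mul]))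
  have s5 : √5 ^ 2 = (5:ℝ) := Real.sq_sqrt (by norm_num)
  have s0 : 0 < √(5:ℝ) := by positivity
  have k1 := key ((1 + √5) / 2) (by nlinarith) (by positivity)
  have k2 := key ((1 - √5) / 2) (by nlinarith) (by nlinarith)
  have v0 : v 0 = 0 := by
    have : √5 * v 0 = 0 := by linarith [k1.1, k2.1]
    simpa using this
  have v3 : v 3 = 0 := by
    have : √5 * v 3 = 0 := by linarith [k1.2, k2.2]
    simpa using this
  have v1 : v 1 = 0 := by simpa [v0] using k1.1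
  have v2 : v 2 = 0 := by simpa [v3] using k1.2
  have v4 : v 4 = 0 := by simpa [g_ap, v0, v1, v2, v3] using hg
  funext i
  fin_cases i <;> assumption

theorem nofield (G' : Subgroup (V ≃ᵃ[ℝ] V)) (hi : G'.relIndex G ≠ 0) (X : V → V)
    (hX : Differentiable ℝ X) (h0 : ∀ p, fderiv ℝ X p = 0)
    (hinv : ∀ γ ∈ G', ∀ p, X (γ p) = γ.linear (X p)) (hn : ∀ p, g (X p) (X p) = 0) : X = 0 := by
  have hm : mk 1 ![0, 0, 0, 0, 1] ∈ G :=
    mk_mem _ _ ⟨![0, 0, 0, 0, 1], fun i => by fin_cases i <;> simp⟩ (by simp)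
  obtain ⟨k, hk, -, hk2⟩ := Subgroup.exists_pow_mem_of_relIndex_ne_zero hi hm
  funext p
  refine fix k hk _ ?_ (hn p)
  have h1 := hinv _ hk2.1 p
  rw [is_const_of_fderiv_eq_zero hX h0 _ p] at h1
  have h2 : (mk 1 ![0, 0, 0, 0, 1] ^ k).linear = C ^ k := by
    have := map_pow (AffineEquiv.linearHom (k := ℝ) (P₁ := V)) (mk 1 ![0, 0, 0, 0, 1]) k
    refine this.trans ?_
    congr 1
  rw [h2] at h1
  exact h1.symm

theorem g_nd : g.Nondegenerate := by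
  have h : ∀ v : V, (∀ w, g v w = 0) → v = 0 := by
    intro v hv
    have h0 := hv ![0, 0, 1, 0, 0]
    have h1 := hv ![0, 0, 0, 1, 0]
    have h2 := hv ![1, 0, 0, 0, 0]
    have h3 := hv ![0, 1, 0, 0, 0]
    have h4 := hv ![0, 0, 0, 0, 1]
    funext i
    fin_cases i <;> simp_all [g_ap]
  refine ⟨h, fun v hv => h v fun w => ?_⟩
  rw [← hv w, g_ap, g_ap]
  ring

end

end Pool.Agent.H.MP_4926dc_gt
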